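import Mathlib
import Pool.Agent.W828.LRG4

/-!
# Every countably infinite group admits long-range percolation with a phase transition

Every countably infinite group `Γ` admits a generating measure `μ` with `λ_c(μ) < ∞`.

The proof is elementary and treats all groups at once.  One chooses finite sets `R_0 ⊆ R_1 ⊆ …`
and, at level `k`, finitely many elements `a` such that the sets `R_k a R_k` are pairwise disjoint
and disjoint from `R_k`; the set `R_{k+1}` is the union of `R_k` and of these sets.  The measure
gives mass comparable to `8^{-k}` to each of the `256 · 4^k` elements of level `k`.  If a cluster
inside a translate of `R_k` has `4^k` vertices, then with probability at least `1 - 2^{-k-2}` it is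
joined by four different elements of level `k` to clusters with `4^k` vertices inside four disjoint
translates of `R_k`.
-/

set_option autoImplicit false

open MeasureTheory ProbabilityTheory
open scoped NNReal ENNReal

namespace Pool.Agent.Results.MP_9aa340_pr.EveryInfiniteGroup

open Pool.Agent.W828.LRG

/-- Every countably infinite group admits a generating measure whose long-range percolation
critical parameter is finite. -/
theorem result (Γ : Type*) [Group Γ] [Countable Γ] [Infinite Γ] :
    ∃ μ : GeneratingMeasure Γ, lambdaC μ < ∞ := by
  obtain ⟨μ, Z, h⟩ := exists_measure Γ
  exact ⟨μ, lambdaC_lt_top μ Z h⟩

end Pool.Agent.Results.MP_9aa340_pr.EveryInfiniteGroup
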